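import Mathlib

namespace Pool.Agent.Results.MP_2a72d7_pr.Atom

open MeasureTheory Filter Topology
open scoped ENNReal

/-- The simple tensor `x₁ ⊗ ⋯ ⊗ x_d`, as a vector indexed by `Fin d → Fin n`. -/
noncomputable def tensor {n d : ℕ} (x : Fin d → Fin n → ℝ) : EuclideanSpace ℝ (Fin d → Fin n) :=
  WithLp.toLp 2 fun j => ∏ k, x k (j k)

/-- `σ_min ≥ s` for the matrix with columns `tensor (x i)`. -/
def SminGe {m n d : ℕ} (s : ℝ) (x : Fin m → Fin d → Fin n → ℝ) : Prop :=
  ∀ a : EuclideanSpace ℝ (Fin m), s * ‖a‖ ≤ ‖∑ i, a i • tensor (x i)‖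

/-- Joint law of all coordinates of all factors of `m` independent tensors: i.i.d. with law `ν`. -/
noncomputable def law (ν : Measure ℝ) (m d n : ℕ) : Measure (Fin m → Fin d → Fin n → ℝ) :=
  Measure.pi fun _ => Measure.pi fun _ => Measure.pi fun _ => ν

noncomputable def nu : Measure ℝ :=
  (1 / 8 : ℝ≥0∞) • Measure.dirac (-2) + (3 / 4 : ℝ≥0∞) • Measure.dirac 0 +
    (1 / 8 : ℝ≥0∞) • Measure.dirac 2

lemma int_nu (f : ℝ → ℝ) : ∫ x, f x ∂nu = f (-2) / 8 + 3 / 4 * f 0 + f 2 / 8 := by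
  have h : ∀ (c : ℝ≥0∞) (a : ℝ), c ≠ ⊤ → Integrable f (c • Measure.dirac a) := fun c a hc =>
    (integrable_dirac (by simp)).smul_measure hc
  rw [nu, integral_add_measure ((h _ _ (by simp)).add_measure (h _ _ (by finiteness))) (h _ _ (by simp)),
    integral_add_measure (h _ _ (by simp)) (h _ _ (by finiteness))]
  simp [integral_smul_measure]
  ring

instance : IsProbabilityMeasure nu := ⟨by
  simp only [nu, Measure.add_apply, Measure.smul_apply, measure_univ, smul_eq_mul, mul_one]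
  rw [← ENNReal.toReal_eq_one_iff, ENNReal.toReal_add (by finiteness) (by finiteness),
    ENNReal.toReal_add (by finiteness) (by finiteness)]
  norm_num⟩

theorem result : ∃ ν : Measure ℝ, IsProbabilityMeasure ν ∧ ∫ x, x ∂ν = 0 ∧ ∫ x, x ^ 2 ∂ν = 1 ∧
    (∀ᵐ x ∂ν, |x| ≤ 2) ∧ ∫ x, Real.exp (x ^ 2 / 2 ^ 2) ∂ν ≤ 2 ∧
    ∀ ε : ℝ, 0 < ε → ε < 1 → ∀ s : ℝ, 0 < s →
      Tendsto (fun n : ℕ => law ν ⌊(1 - ε) * (n : ℝ) ^ n⌋₊ n n {x | SminGe s x}) atTop (𝓝 0) := by
  refine ⟨nu, inferInstance, by rw [int_nu]; norm_num, by rw [int_nu]; norm_num, ?_, ?_, ?_⟩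
  · simp only [nu, ae_add_measure_iff]
    refine ⟨⟨?_, ?_⟩, ?_⟩ <;> apply Measure.ae_smul_measure <;> simp
  · rw [int_nu]
    have := Real.exp_one_lt_d9
    norm_num
    linarith
  intro ε h0 h1 s hs
  have hp : (1 / 2 : ℝ≥0∞) ≤ nu {0} := by
    have : (1 / 2 : ℝ≥0∞) ≤ 3 / 4 := by
      rw [← ENNReal.toReal_le_toReal (by finiteness) (by finiteness)]; norm_num
    refine this.trans ?_
    simp [nu]
  have key : ∀ m n : ℕ, 1 ≤ n → law nu m n n {x | SminGe s x} ≤
      ENNReal.ofReal ((1 - (1 / 2) ^ n) ^ m) := by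
    intro m n hn
    let k0 : Fin n := ⟨0, hn⟩
    let Z : Set (Fin n → Fin n → ℝ) := (fun y => y k0) ⁻¹' (Set.univ.pi fun _ => {0})
    have hZm : MeasurableSet Z := measurable_pi_apply k0 (MeasurableSet.univ_pi fun _ =>
      measurableSet_singleton _)
    have hsub : {x : Fin m → Fin n → Fin n → ℝ | SminGe s x} ⊆ Set.univ.pi fun _ => Zᶜ := by
      intro x hx i _ hi
      have h2 : tensor (x i) = 0 := by
        ext j
        exact Finset.prod_eq_zero (Finset.mem_univ k0) (hi (j k0) trivial)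
      have := hx (EuclideanSpace.single i 1)
      rw [Finset.sum_eq_single i (fun b _ hb => by simp [hb]) (by simp), h2] at this
      simp at this
      linarith
    refine (measure_mono hsub).trans ?_
    rw [law, Measure.pi_pi, Finset.prod_const, Finset.card_univ, Fintype.card_fin,
      ENNReal.ofReal_pow (sub_nonneg.2 (pow_le_one₀ (by norm_num) (by norm_num)))]
    gcongr
    have hZ : (1 / 2 : ℝ≥0∞) ^ n ≤
        (Measure.pi fun _ : Fin n => Measure.pi fun _ : Fin n => nu) Z := by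
      rw [(measurePreserving_eval (fun _ : Fin n => Measure.pi fun _ : Fin n => nu)
        k0).measure_preimage (MeasurableSet.univ_pi fun _ =>
          measurableSet_singleton _).nullMeasurableSet, Measure.pi_pi, Finset.prod_const,
        Finset.card_univ, Fintype.card_fin]
      gcongr
    rw [prob_compl_eq_one_sub hZm, ENNReal.ofReal_sub _ (by positivity), ENNReal.ofReal_one,
      ENNReal.ofReal_pow (by norm_num)]
    refine tsub_le_tsub_left (le_trans (le_of_eq ?_) hZ) _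
    congr 1
    rw [ENNReal.ofReal_div_of_pos (by norm_num)]; simp
  have lim : Tendsto (fun n : ℕ => (1 - (1 / 2 : ℝ) ^ n) ^ ⌊(1 - ε) * (n : ℝ) ^ n⌋₊) atTop (𝓝 0) := by
    have t1 : Tendsto (fun n : ℕ => (1 - ε) * 2 ^ n - 1) atTop atTop :=
      tendsto_atTop_add_const_right _ (-1) ((tendsto_pow_atTop_atTop_of_one_lt
        one_lt_two).const_mul_atTop (sub_pos.2 h1))
    refine squeeze_zero' (Eventually.of_forall fun n =>
      pow_nonneg (sub_nonneg.2 (pow_le_one₀ (by norm_num) (by norm_num))) _) ?_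
      (Real.tendsto_exp_neg_atTop_nhds_zero.comp t1)
    filter_upwards [eventually_ge_atTop 4] with n hn
    have a1 : 1 - (1 / 2 : ℝ) ^ n ≤ Real.exp (-(1 / 2) ^ n) := by
      linarith [Real.add_one_le_exp (-(1 / 2 : ℝ) ^ n)]
    refine (pow_le_pow_left₀ (sub_nonneg.2 (pow_le_one₀ (by norm_num) (by norm_num))) a1 _).trans ?_
    rw [← Real.exp_nat_mul, Function.comp, Real.exp_le_exp, mul_neg, neg_le_neg_iff]
    have a2 := (Nat.sub_one_lt_floor ((1 - ε) * (n : ℝ) ^ n)).le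
    have a3 : (4 : ℝ) ^ n ≤ (n : ℝ) ^ n := pow_le_pow_left₀ (by norm_num) (by exact_mod_cast hn) _
    have a4 : (4 : ℝ) ^ n * (1 / 2) ^ n = 2 ^ n := by rw [← mul_pow]; norm_num
    have a5 : (1 / 2 : ℝ) ^ n ≤ 1 := pow_le_one₀ (by norm_num) (by norm_num)
    have a6 : (0 : ℝ) < (1 / 2) ^ n := by positivity
    have a7 := mul_le_mul_of_nonneg_left a3 (sub_pos.2 h1).le
    nlinarith
  have lim2 := ENNReal.tendsto_ofReal lim
  rw [ENNReal.ofReal_zero] at lim2
  refine tendsto_of_tendsto_of_tendsto_of_le_of_le' tendsto_const_nhds lim2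
    (Eventually.of_forall fun _ => zero_le) ?_
  filter_upwards [eventually_ge_atTop 1] with n hn using key _ n hn

end Pool.Agent.Results.MP_2a72d7_pr.Atom
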